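import Pool.Agent.Q220.Theta.Base

/-!
MP_cf0832_co, Q1. Conditions (A), (B), (C) and bounded densities of all theta graphs `H_{k,l}` do
not imply (D), for any `l ≥ 3`. A vertex set of size `n p + O(1)` is isolated and a complete
bipartite graph with sides of sizes `l / 2 + 1` and `⌊n p⌋` is planted on it. It has fewer than `l`
vertices on one side, so it contains no theta graph with two or more paths, but it has about
`(n p) ^ ⌊l / 2⌋` paths of length `l` between some two vertices.
-/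

open MeasureTheory Filter
open scoped unitInterval Topology
open Q220.Theta

namespace Pool.Agent.Results.MP_cf0832_co.ThetaNotEnough

/-- For every `l ≥ 3`:
(1) if `0 < p ≤ 1`, `n p → ∞` and `(n p) ^ ⌈l / 2⌉ ≤ n ^ (1 - ε)` for large `n`, then every sequence
that satisfies (A), (B), (C) and has bounded theta densities can be changed to a sequence that
satisfies the same conditions, with the same `p`, `C` and the same limit kernel, and violates (D);
(2) for all `C > 0` and `0 < δ < 1 / ⌈l / 2⌉` there is, for `p = n ^ (δ - 1)`, a sequence that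
satisfies (A), (B), (C) and has bounded theta densities, but violates (D). -/
theorem result :
    (∀ (l : ℕ) (C ε : ℝ) (κ : I → I → ℝ) (p : ℕ → ℝ) (G : (n : ℕ) → SimpleGraph (Fin n)),
      3 ≤ l → (∀ n, 0 < p n ∧ p n ≤ 1) →
      Tendsto (fun n : ℕ => (n : ℝ) * p n) atTop atTop →
      0 < ε → (∀ᶠ n : ℕ in atTop, ((n : ℝ) * p n) ^ ((l + 1) / 2) ≤ (n : ℝ) ^ (1 - ε)) →
      Hyp C l κ p G →
      ∃ G' : (n : ℕ) → SimpleGraph (Fin n), Hyp C l κ p G' ∧ ¬ CondD l p G') ∧
    (∀ (l : ℕ) (C δ : ℝ), 3 ≤ l → 0 < C → 0 < δ → δ * ((l + 1) / 2 : ℕ) < 1 →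
      ∃ (p : ℕ → ℝ) (G : (n : ℕ) → SimpleGraph (Fin n)), (∀ n, 0 < p n ∧ p n ≤ 1) ∧
        (∀ n : ℕ, 1 ≤ n → p n = (n : ℝ) ^ (δ - 1)) ∧
        Hyp C l (fun _ _ => 0) p G ∧ ¬ CondD l p G) :=
  ⟨fun _ _ _ _ _ _ hl hp hx hε hsp h => surgery hl (fun n => (hp n).1) hx hε hsp h,
    fun _ _ _ hl hC h0 h1 => example_exists hl hC.le h0 h1⟩

end Pool.Agent.Results.MP_cf0832_co.ThetaNotEnough
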